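import Pool.Agent.W626.AH.Stm

set_option autoImplicit false

/-!
# Project AH (MP_53fefd_al): S_act
-/

namespace Pool.Agent.W924.AH.ACT

open Pool.Agent.W626.AH

theorem main : Pool.Agent.W626.AH.S_hm → Pool.Agent.W626.AH.S_act := by
  intro _ G _ ℓ _ a f g
  unfold hd
  exact (Equiv.mulLeft a⁻¹).iSup_comp (g := fun x : G => |f.1 x - g.1 x|)

end Pool.Agent.W924.AH.ACT
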